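import Mathlib

set_option autoImplicit false

/-!
CarryingSets (helper5): the abstract part. A nonnegative function `X` on a set `D` of finite measure with Gaussian
level sets and moments of the Gaussian order.
-/

namespace Run7.h5.CS

open MeasureTheory Filter Topology

/-- the level set -/
def Lv (X : ℝ → ℝ) (W V : ℝ) : Set ℝ := {t | Real.exp (V - W) ≤ X t ∧ X t ≤ Real.exp (V + W)}

/-- half-open pieces -/
def Pc (X : ℝ → ℝ) (u v : ℝ) : Set ℝ := {t | Real.exp u ≤ X t ∧ X t < Real.exp v}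

/-- abstract data: Gaussian level sets and moments -/
structure Dat (D : Set ℝ) (X : ℝ → ℝ) (c C W B H L : ℝ) : Prop where
  mD : MeasurableSet D
  mX : Measurable X
  X0 : ∀ t, 0 ≤ X t
  fD : volume D ≠ ⊤
  vD : volume.real D ≤ H
  lo : ∀ V : ℝ, |V| ≤ B * L → c * H * (Real.exp (-(V ^ 2 / L)) / Real.sqrt L) ≤ volume.real (D ∩ Lv X W V)
  hi : ∀ V : ℝ, |V| ≤ B * L → volume.real (D ∩ Lv X W V) ≤ C * H * (Real.exp (-(V ^ 2 / L)) / Real.sqrt L)
  int : ∀ k : ℝ, |k| ≤ B → IntegrableOn (fun t => X t ^ (2 * k)) D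
  mom : ∀ k : ℝ, |k| ≤ B → ∫ t in D, X t ^ (2 * k) ≤ C * H * Real.exp (k ^ 2 * L)

/-- the Gaussian profile -/
noncomputable def prof (a : ℝ) : ℝ := Real.exp (-a ^ 2) / (1 + a)

lemma prof_pos {a : ℝ} (ha : 0 ≤ a) : 0 < prof a := by unfold prof; positivity

lemma mLv {X : ℝ → ℝ} (mX : Measurable X) (W V : ℝ) : MeasurableSet (Lv X W V) :=
  (measurableSet_le measurable_const mX).inter (measurableSet_le mX measurable_const)

lemma mPc {X : ℝ → ℝ} (mX : Measurable X) (u v : ℝ) : MeasurableSet (Pc X u v) :=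
  (measurableSet_le measurable_const mX).inter (measurableSet_lt mX measurable_const)

lemma exp_rpow (v b : ℝ) : Real.exp v ^ b = Real.exp (b * v) := by
  rw [← Real.exp_mul, mul_comm]

/-- lower bound for the integral over a set where `X` is at least `exp v` -/
lemma int_ge {X : ℝ → ℝ} {G : Set ℝ} {b v : ℝ} (mG : MeasurableSet G) (fG : volume G ≠ ⊤)
    (hb : 0 ≤ b) (hi : IntegrableOn (fun t => X t ^ b) G) (h : ∀ t ∈ G, Real.exp v ≤ X t) :
    Real.exp (b * v) * volume.real G ≤ ∫ t in G, X t ^ b := by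
  have h1 : ∫ _ in G, Real.exp (b * v) ≤ ∫ t in G, X t ^ b := by
    apply setIntegral_mono_on (integrableOn_const fG) hi mG
    intro t ht
    rw [← exp_rpow]
    exact Real.rpow_le_rpow (Real.exp_pos _).le (h t ht) hb
  rw [setIntegral_const, smul_eq_mul, mul_comm] at h1
  exact h1

/-- upper bound for the integral over a set where `X` is at most `exp v` -/
lemma int_le {X : ℝ → ℝ} (X0 : ∀ t, 0 ≤ X t) {G : Set ℝ} {b v : ℝ} (mG : MeasurableSet G) (fG : volume G ≠ ⊤)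
    (hb : 0 ≤ b) (hi : IntegrableOn (fun t => X t ^ b) G) (h : ∀ t ∈ G, X t ≤ Real.exp v) :
    ∫ t in G, X t ^ b ≤ Real.exp (b * v) * volume.real G := by
  have h1 : ∫ t in G, X t ^ b ≤ ∫ _ in G, Real.exp (b * v) := by
    apply setIntegral_mono_on hi (integrableOn_const fG) mG
    intro t ht
    rw [← exp_rpow]
    exact Real.rpow_le_rpow (X0 t) (h t ht) hb
  rw [setIntegral_const, smul_eq_mul, mul_comm] at h1
  exact h1

lemma fin_of_sub {A G : Set ℝ} (h : A ⊆ G) (fG : volume G ≠ ⊤) : volume A ≠ ⊤ :=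
  ne_top_of_le_ne_top fG (measure_mono h)

lemma mono_real {A G : Set ℝ} (h : A ⊆ G) (fG : volume G ≠ ⊤) : volume.real A ≤ volume.real G :=
  measureReal_mono h fG

lemma int_mono {X : ℝ → ℝ} (X0 : ∀ t, 0 ≤ X t) {A G : Set ℝ} {b : ℝ}
    (hi : IntegrableOn (fun t => X t ^ b) G) (h : A ⊆ G) : ∫ t in A, X t ^ b ≤ ∫ t in G, X t ^ b :=
  setIntegral_mono_set hi (Eventually.of_forall fun t => Real.rpow_nonneg (X0 t) b) (LE.le.eventuallyLE h)

lemma pc_split {X : ℝ → ℝ} {u v w : ℝ} (h1 : u ≤ v) (h2 : v ≤ w) (G : Set ℝ) :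
    G ∩ Pc X u w = (G ∩ Pc X u v) ∪ (G ∩ Pc X v w) := by
  ext t
  simp only [Pc, Set.mem_inter_iff, Set.mem_union, Set.mem_ofPred_eq]
  have e1 := Real.exp_le_exp.mpr h1
  have e2 := Real.exp_le_exp.mpr h2
  constructor
  · rintro ⟨h, h3, h4⟩
    rcases lt_or_ge (X t) (Real.exp v) with h5 | h5
    · exact Or.inl ⟨h, h3, h5⟩
    · exact Or.inr ⟨h, h5, h4⟩
  · rintro (⟨h, h3, h4⟩ | ⟨h, h3, h4⟩)
    · exact ⟨h, h3, lt_of_lt_of_le h4 e2⟩
    · exact ⟨h, e1.trans h3, h4⟩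

lemma pc_disj {X : ℝ → ℝ} {u v w : ℝ} (G : Set ℝ) : Disjoint (G ∩ Pc X u v) (G ∩ Pc X v w) := by
  rw [Set.disjoint_left]
  rintro t ⟨_, h1⟩ ⟨_, h2⟩
  exact absurd h1.2 (not_lt.mpr h2.1)

lemma int_split {X : ℝ → ℝ} (mX : Measurable X) {G : Set ℝ} (mG : MeasurableSet G) {b u v w : ℝ} (h1 : u ≤ v)
    (h2 : v ≤ w) (hi : IntegrableOn (fun t => X t ^ b) G) :
    ∫ t in G ∩ Pc X u w, X t ^ b = (∫ t in G ∩ Pc X u v, X t ^ b) + ∫ t in G ∩ Pc X v w, X t ^ b := by
  rw [pc_split h1 h2 G]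
  exact setIntegral_union (pc_disj G) (mG.inter (mPc mX v w)) (hi.mono_set Set.inter_subset_left)
    (hi.mono_set Set.inter_subset_left)

/-- lower bound by disjoint levels -/
lemma low_sum {X : ℝ → ℝ} (mX : Measurable X) (X0 : ∀ t, 0 ≤ X t) {G : Set ℝ} (mG : MeasurableSet G)
    (fG : volume G ≠ ⊤) {b : ℝ} (hb : 0 ≤ b) (hi : IntegrableOn (fun t => X t ^ b) G) {W V : ℝ} (hW : 0 < W) (q : ℝ)
    (N : ℕ) (h : ∀ j < N, q ≤ Real.exp (b * (V + j * (2 * W + 1) - W)) *
      volume.real (G ∩ Lv X W (V + j * (2 * W + 1)))) :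
    N * q ≤ ∫ t in G ∩ Pc X (V - W) (V + N * (2 * W + 1) - W), X t ^ b := by
  induction N with
  | zero =>
    simp only [Nat.cast_zero, zero_mul]
    exact setIntegral_nonneg_of_ae (Eventually.of_forall fun t => Real.rpow_nonneg (X0 t) b)
  | succ N ih =>
    have ih' := ih fun j hj => h j (by omega)
    have h1 := h N (by omega)
    have e1 : V - W ≤ V + N * (2 * W + 1) - W := by
      have : 0 ≤ (N:ℝ) * (2 * W + 1) := by positivity
      linarith
    have e2 : V + N * (2 * W + 1) - W ≤ V + ((N + 1 : ℕ) : ℝ) * (2 * W + 1) - W := by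
      push_cast
      nlinarith
    rw [int_split mX mG e1 e2 hi]
    have e3 : G ∩ Lv X W (V + N * (2 * W + 1)) ⊆
        G ∩ Pc X (V + N * (2 * W + 1) - W) (V + ((N + 1 : ℕ) : ℝ) * (2 * W + 1) - W) := by
      rintro t ⟨ht, h2, h3⟩
      refine ⟨ht, h2, lt_of_le_of_lt h3 (Real.exp_lt_exp.mpr ?_)⟩
      push_cast
      nlinarith
    have e4 : ∫ t in G ∩ Lv X W (V + N * (2 * W + 1)), X t ^ b ≤
        ∫ t in G ∩ Pc X (V + N * (2 * W + 1) - W) (V + ((N + 1 : ℕ) : ℝ) * (2 * W + 1) - W), X t ^ b :=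
      int_mono X0 (hi.mono_set Set.inter_subset_left) e3
    have e5 := int_ge (v := V + N * (2 * W + 1) - W) (mG.inter (mLv mX W (V + N * (2 * W + 1))))
      (fin_of_sub Set.inter_subset_left fG) hb (hi.mono_set Set.inter_subset_left) (fun t ht => ht.2.1)
    push_cast at *
    linarith

/-- upper bound, pieces ascending -/
lemma up_asc {X : ℝ → ℝ} (mX : Measurable X) (X0 : ∀ t, 0 ≤ X t) {G : Set ℝ} (mG : MeasurableSet G)
    (fG : volume G ≠ ⊤) {b : ℝ} (hb : 0 ≤ b) (hi : IntegrableOn (fun t => X t ^ b) G) {W V : ℝ} (hW : 0 < W)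
    (N : ℕ) : ∫ t in G ∩ Pc X V (V + 2 * W * N), X t ^ b ≤ ∑ j ∈ Finset.range N,
      Real.exp (b * (V + 2 * W * j + W + W)) * volume.real (G ∩ Lv X W (V + 2 * W * j + W)) := by
  induction N with
  | zero =>
    have e : G ∩ Pc X V (V + 2 * W * (0 : ℕ)) = ∅ := by
      ext t
      simp only [Pc, Set.mem_inter_iff, Set.mem_ofPred_eq, Set.mem_empty_iff_false, iff_false]
      rintro ⟨_, h1, h2⟩
      simp at h2
      linarith
    rw [e]
    simp
  | succ N ih =>
    have e1 : V ≤ V + 2 * W * N := by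
      have : 0 ≤ 2 * W * (N:ℝ) := by positivity
      linarith
    have e2 : V + 2 * W * N ≤ V + 2 * W * ((N + 1 : ℕ) : ℝ) := by
      push_cast
      nlinarith
    rw [int_split mX mG e1 e2 hi, Finset.sum_range_succ]
    have e3 : G ∩ Pc X (V + 2 * W * N) (V + 2 * W * ((N + 1 : ℕ) : ℝ)) ⊆ G ∩ Lv X W (V + 2 * W * N + W) := by
      rintro t ⟨ht, h2, h3⟩
      refine ⟨ht, ?_, ?_⟩
      · rw [add_sub_cancel_right]; exact h2
      · refine h3.le.trans (Real.exp_le_exp.mpr ?_)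
        push_cast
        nlinarith
    have e4 := int_le X0 (v := V + 2 * W * N + W + W) (mG.inter (mLv mX W (V + 2 * W * N + W)))
      (fin_of_sub Set.inter_subset_left fG) hb (hi.mono_set Set.inter_subset_left) (fun t ht => ht.2.2)
    have e5 := int_mono (b := b) X0 (hi.mono_set Set.inter_subset_left) e3
    linarith

/-- upper bound, pieces descending -/
lemma up_desc {X : ℝ → ℝ} (mX : Measurable X) (X0 : ∀ t, 0 ≤ X t) {G : Set ℝ} (mG : MeasurableSet G)
    (fG : volume G ≠ ⊤) {b : ℝ} (hb : 0 ≤ b) (hi : IntegrableOn (fun t => X t ^ b) G) {W V : ℝ} (hW : 0 < W)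
    (N : ℕ) : ∫ t in G ∩ Pc X (V - 2 * W * N) V, X t ^ b ≤ ∑ j ∈ Finset.range N,
      Real.exp (b * (V - 2 * W * j - W + W)) * volume.real (G ∩ Lv X W (V - 2 * W * j - W)) := by
  induction N with
  | zero =>
    have e : G ∩ Pc X (V - 2 * W * (0 : ℕ)) V = ∅ := by
      ext t
      simp only [Pc, Set.mem_inter_iff, Set.mem_ofPred_eq, Set.mem_empty_iff_false, iff_false]
      rintro ⟨_, h1, h2⟩
      simp at h1
      linarith
    rw [e]
    simp
  | succ N ih =>
    have e1 : V - 2 * W * N ≤ V := by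
      have : 0 ≤ 2 * W * (N:ℝ) := by positivity
      linarith
    have e2 : V - 2 * W * ((N + 1 : ℕ) : ℝ) ≤ V - 2 * W * N := by
      push_cast
      nlinarith
    rw [int_split mX mG e2 e1 hi, Finset.sum_range_succ]
    have e3 : G ∩ Pc X (V - 2 * W * ((N + 1 : ℕ) : ℝ)) (V - 2 * W * N) ⊆ G ∩ Lv X W (V - 2 * W * N - W) := by
      rintro t ⟨ht, h2, h3⟩
      refine ⟨ht, ?_, ?_⟩
      · refine le_trans (Real.exp_le_exp.mpr ?_) h2
        push_cast
        nlinarith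
      · rw [sub_add_cancel]; exact h3.le
    have e4 := int_le X0 (v := V - 2 * W * N - W + W) (mG.inter (mLv mX W (V - 2 * W * N - W)))
      (fin_of_sub Set.inter_subset_left fG) hb (hi.mono_set Set.inter_subset_left) (fun t ht => ht.2.2)
    have e5 := int_mono (b := b) X0 (hi.mono_set Set.inter_subset_left) e3
    linarith

/-- the Gaussian identity -/
lemma key {L : ℝ} (hL : 0 < L) (b x : ℝ) :
    b * (b / 2 * L - x * Real.sqrt L) - (b / 2 * L - x * Real.sqrt L) ^ 2 / L = b ^ 2 / 4 * L - x ^ 2 := by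
  have hs : Real.sqrt L ^ 2 = L := Real.sq_sqrt hL.le
  have e : (b / 2 * L - x * Real.sqrt L) ^ 2 / L = b ^ 2 / 4 * L - b * x * Real.sqrt L + x ^ 2 := by
    rw [div_eq_iff hL.ne']
    have : (b / 2 * L - x * Real.sqrt L) ^ 2 =
      b ^ 2 / 4 * L ^ 2 - b * x * Real.sqrt L * L + x ^ 2 * Real.sqrt L ^ 2 := by ring
    rw [this, hs]; ring
  rw [e]; ring

lemma key2 {L : ℝ} (hL : 0 < L) (b x : ℝ) :
    (b / 2 * L - x * Real.sqrt L) ^ 2 / L = b ^ 2 / 4 * L - b * x * Real.sqrt L + x ^ 2 := by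
  have := key hL b x
  linarith [this]

/-- the sum over the levels -/
lemma gsum {a h : ℝ} (ha : 0 ≤ a) (hh : 0 < h) (hha : h * (1 + a) ≤ 1) (N : ℕ) :
    ∑ j ∈ Finset.range N, Real.exp (-(a + h * (j + 1 / 2)) ^ 2) * h ≤ 4 * prof a := by
  set u : ℝ := (2 * a + 1) * h with hu
  have hu0 : 0 < u := by positivity
  have h1 : ∀ j : ℕ, Real.exp (-(a + h * (j + 1 / 2)) ^ 2) ≤ 2 * Real.exp (-a ^ 2) * Real.exp (-u) ^ j := by
    intro j
    have e1 : (2:ℝ) ≥ Real.exp (1 / 4) := by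
      have := Real.exp_bound_div_one_sub_of_interval (x := 1 / 4) (by norm_num) (by norm_num)
      linarith
    have e2 : Real.exp (-u) ^ j = Real.exp (-(u * j)) := by
      rw [← Real.exp_nat_mul]; congr 1; ring
    rw [e2]
    have e3 : -(a + h * (j + 1 / 2)) ^ 2 ≤ 1 / 4 + (-a ^ 2) + (-(u * j)) := by
      have hy : 0 ≤ h * ((j:ℝ) + 1 / 2) := by positivity
      have h2 : (h * ((j:ℝ) + 1 / 2)) ^ 2 ≥ h * ((j:ℝ) + 1 / 2) - 1 / 4 := by
        nlinarith [sq_nonneg (h * ((j:ℝ) + 1 / 2) - 1 / 2)]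
      have h3 : (a + h * (j + 1 / 2)) ^ 2 = a ^ 2 + 2 * a * (h * (j + 1 / 2)) + (h * (j + 1 / 2)) ^ 2 := by ring
      have h4 : (2 * a + 1) * (h * ((j:ℝ) + 1 / 2)) ≥ u * j := by
        rw [hu]
        nlinarith [mul_nonneg ha hh.le]
      rw [h3]
      nlinarith
    calc Real.exp (-(a + h * (j + 1 / 2)) ^ 2) ≤ Real.exp (1 / 4 + (-a ^ 2) + (-(u * j))) := Real.exp_le_exp.mpr e3
      _ = Real.exp (1 / 4) * Real.exp (-a ^ 2) * Real.exp (-(u * j)) := by rw [Real.exp_add, Real.exp_add]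
      _ ≤ 2 * Real.exp (-a ^ 2) * Real.exp (-(u * j)) := by gcongr
  set q : ℝ := Real.exp (-u) with hq
  have hq0 : 0 < q := Real.exp_pos _
  have hq1 : q < 1 := (Real.exp_lt_exp.mpr (by linarith : -u < 0)).trans_eq Real.exp_zero
  have h2 : ∑ j ∈ Finset.range N, q ^ j ≤ 1 / (1 - q) := by
    rw [geom_sum_eq hq1.ne]
    have : (q ^ N - 1) / (q - 1) = (1 - q ^ N) / (1 - q) := by
      rw [← neg_sub, ← neg_sub 1 q, neg_div_neg_eq]
    rw [this]
    apply div_le_div_of_nonneg_right _ (by linarith)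
    have : 0 < q ^ N := by positivity
    linarith
  have h3 : h * (1 / (1 - q)) ≤ 2 / (1 + a) := by
    have e1 : q ≤ 1 / (1 + u) := by
      rw [hq, Real.exp_neg, one_div]
      exact inv_anti₀ (by positivity) (by linarith [Real.add_one_le_exp u])
    have e2 : u / (1 + u) ≤ 1 - q := by
      have : u / (1 + u) = 1 - 1 / (1 + u) := by field_simp; ring
      linarith
    have e3 : 1 / (1 - q) ≤ (1 + u) / u := by
      rw [div_le_div_iff₀ (by linarith) hu0]
      rw [div_le_iff₀ (by positivity)] at e2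
      linarith
    have e4 : h * ((1 + u) / u) = h + 1 / (2 * a + 1) := by
      rw [hu]; field_simp; ring
    have e5 : h ≤ 1 / (1 + a) := by
      rw [le_div_iff₀ (by positivity)]; exact hha
    have e6 : 1 / (2 * a + 1) ≤ 1 / (1 + a) := one_div_le_one_div_of_le (by positivity) (by linarith)
    have e7 : 2 / (1 + a) = 1 / (1 + a) + 1 / (1 + a) := by ring
    calc h * (1 / (1 - q)) ≤ h * ((1 + u) / u) := by gcongr
      _ = h + 1 / (2 * a + 1) := e4
      _ ≤ 2 / (1 + a) := by rw [e7]; linarith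
  calc ∑ j ∈ Finset.range N, Real.exp (-(a + h * (j + 1 / 2)) ^ 2) * h
      ≤ ∑ j ∈ Finset.range N, 2 * Real.exp (-a ^ 2) * q ^ j * h := by
        apply Finset.sum_le_sum
        intro j _
        exact mul_le_mul_of_nonneg_right (h1 j) hh.le
    _ = 2 * Real.exp (-a ^ 2) * (h * ∑ j ∈ Finset.range N, q ^ j) := by
        rw [Finset.mul_sum, Finset.mul_sum]
        exact Finset.sum_congr rfl fun j _ => by ring
    _ ≤ 2 * Real.exp (-a ^ 2) * (2 / (1 + a)) := by
        have : h * ∑ j ∈ Finset.range N, q ^ j ≤ 2 / (1 + a) :=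
          le_trans (mul_le_mul_of_nonneg_left h2 hh.le) h3
        gcongr
    _ = 4 * prof a := by unfold prof; ring

end Run7.h5.CS
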