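import Pool.Agent.Run7.h5.CS.Up2
import Pool.Agent.TH806.LM.Fin

set_option autoImplicit false

/-!
CarryingSets (helper5): assembly for zeta.
-/

namespace Run7.h5.CS

open MeasureTheory Filter Topology

/-- `|ζ(1/2+it)|` -/
noncomputable def zx (t : ℝ) : ℝ := ‖riemannZeta (1 / 2 + t * Complex.I)‖

lemma zx_cont : Continuous zx := by
  unfold zx
  apply Continuous.norm
  rw [continuous_iff_continuousAt]
  intro t
  have h1 : (1 / 2 + (t:ℂ) * Complex.I) ≠ 1 := by
    intro h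
    have := congrArg Complex.re h
    norm_num at this
  have h2 : ContinuousAt riemannZeta (1 / 2 + (t:ℂ) * Complex.I) := (differentiableAt_riemannZeta h1).continuousAt
  exact ContinuousAt.comp (f := fun t : ℝ => (1 / 2 + (t:ℂ) * Complex.I)) h2 (by fun_prop)

lemma zx_nonneg (t : ℝ) : 0 ≤ zx t := norm_nonneg _

lemma zx_int {b : ℝ} (hb : 0 ≤ b) (u v : ℝ) : IntegrableOn (fun t => zx t ^ b) (Set.Icc u v) :=
  ((zx_cont.rpow_const fun _ => Or.inr hb).continuousOn).integrableOn_Icc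

/-- the input, in the form used here -/
theorem core (B ε : ℝ) (hB : 0 < B) (hε : 0 < ε) : ∃ (E : Set ℝ) (c C W : ℝ), MeasurableSet E ∧ 0 < c ∧ 0 < C ∧
    0 < W ∧ ∀ α : ℝ, 0 ≤ α → α < 1 → ∀ᶠ T : ℝ in atTop, ∀ H : ℝ, T / Real.log T ^ α ≤ H → H ≤ T →
      0 < H ∧ (1 - ε) * H ≤ volume.real (E ∩ Set.Icc T (T + H)) ∧
      Dat (E ∩ Set.Icc T (T + H)) zx c C W B H (Real.log (Real.log T)) := by
  obtain ⟨E, c, C, W, δ, mE, hc, hC, hW, hδ, hδδ, hq, h⟩ :=
    Pool.Agent.TH806.LM.a_FIN B ε 1 hB.le hε one_pos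
  refine ⟨E, c, C, W, mE, hc, hC, hW, fun α h0 h1 => ?_⟩
  filter_upwards [h α h0 h1, eventually_gt_atTop (1:ℝ)] with T hT hT1 H hH1 hH2
  obtain ⟨a1, a2, a3⟩ := hT H hH1 hH2
  have hlT : 0 < Real.log T := Real.log_pos hT1
  have hH0 : 0 < H := by
    refine lt_of_lt_of_le ?_ hH1
    positivity
  have hfin : volume (Set.Icc T (T + H)) ≠ ⊤ := by
    rw [Real.volume_Icc]; exact ENNReal.ofReal_ne_top
  have e1 : volume.real (Set.Icc T (T + H)) = H := by
    rw [Real.volume_real_Icc_of_le (by linarith)]; ring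
  have hcomm : E ∩ Set.Icc T (T + H) = Set.Icc T (T + H) ∩ E := Set.inter_comm _ _
  have hset : ∀ V : ℝ, (E ∩ Set.Icc T (T + H)) ∩ Lv zx W V =
      Set.Icc T (T + H) ∩ (E ∩ Pool.Agent.TH806.LM.Lev V W) := by
    intro V
    ext t
    constructor
    · rintro ⟨⟨h1, h2⟩, h3⟩
      exact ⟨h2, h1, h3⟩
    · rintro ⟨h2, h1, h3⟩
      exact ⟨⟨h1, h2⟩, h3⟩
  refine ⟨hH0, ?_, ?_⟩
  · have e2 := measureReal_inter_add_sdiff (μ := volume) (s := Set.Icc T (T + H)) mE hfin
    rw [hcomm]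
    have e3 : Set.Icc T (T + H) \ E = Set.Icc T (T + H) ∩ Eᶜ := rfl
    rw [e3, e1] at e2
    linarith
  · refine ⟨mE.inter measurableSet_Icc, zx_cont.measurable, zx_nonneg,
      fin_of_sub Set.inter_subset_right hfin, ?_, ?_, ?_, ?_, ?_⟩
    · exact (mono_real Set.inter_subset_right hfin).trans_eq e1
    · intro V hV
      rw [hset V]
      refine le_trans (le_of_eq ?_) (a2 V hV).1
      unfold Pool.Agent.TH806.LM.gg; ring
    · intro V hV
      rw [hset V]
      refine (a2 V hV).2.trans (le_of_eq ?_)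
      unfold Pool.Agent.TH806.LM.gg; ring
    · intro k hk
      rw [hcomm]
      exact (a3 k hk).1
    · intro k hk
      rw [hcomm]
      refine (a3 k hk).2.2.trans (le_of_eq ?_)
      rw [Real.rpow_def_of_pos hlT]
      ring_nf

/-- transport of an eventual statement in `log log T` -/
lemma ev_loglog {P : ℝ → Prop} (h : ∀ᶠ L : ℝ in atTop, P L) : ∀ᶠ T : ℝ in atTop, P (Real.log (Real.log T)) :=
  (Real.tendsto_log_atTop.comp Real.tendsto_log_atTop).eventually h

end Run7.h5.CS
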