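import Pool.Agent.Run7.h5.CS.Abs

set_option autoImplicit false

/-!
CarryingSets (helper5): the lower bounds.
-/

namespace Run7.h5.CS

open MeasureTheory Filter Topology

/-- the lower constant -/
noncomputable def c₁ (c W B : ℝ) : ℝ := c * Real.exp (-(B * W + 8)) / (4 * (2 * W + 1))

lemma c₁_pos {c W B : ℝ} (hc : 0 < c) (hW : 0 < W) : 0 < c₁ c W B := by unfold c₁; positivity

lemma gen_low {D : Set ℝ} {X : ℝ → ℝ} {c C W B H L : ℝ} (d : Dat D X c C W B H L) (hL : 0 < L) (hH : 0 < H)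
    (hW : 0 < W) {G : Set ℝ} (hG : G ⊆ D) (mG : MeasurableSet G) {b κ y x₀ : ℝ} (hb : 0 < b) (hbB : b ≤ B) (hκ : 0 ≤ κ)
    (N : ℕ) (h : ∀ j : ℕ, j < N → |x₀ - j * (2 * W + 1) / Real.sqrt L| ≤ y ∧
      κ * H * (Real.exp (-((b / 2 * L - x₀ * Real.sqrt L + j * (2 * W + 1)) ^ 2 / L)) / Real.sqrt L) ≤
        volume.real (G ∩ Lv X W (b / 2 * L - x₀ * Real.sqrt L + j * (2 * W + 1)))) :
    N * (κ * Real.exp (-(b * W)) * Real.exp (-y ^ 2) * (H * Real.exp (b ^ 2 / 4 * L)) / Real.sqrt L) ≤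
      ∫ t in G ∩ Pc X (b / 2 * L - x₀ * Real.sqrt L - W) (b / 2 * L - x₀ * Real.sqrt L + N * (2 * W + 1) - W),
        X t ^ b := by
  have hs : 0 < Real.sqrt L := Real.sqrt_pos.mpr hL
  have fG := fin_of_sub hG d.fD
  have hi : IntegrableOn (fun t => X t ^ b) G := by
    have := (d.int (b / 2) (by rw [abs_of_pos (by positivity)]; linarith)).mono_set hG
    simpa [show 2 * (b / 2) = b by ring] using this
  apply low_sum d.mX d.X0 mG fG hb.le hi hW
  intro j hj
  obtain ⟨h1, h2⟩ := h j hj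
  set x : ℝ := x₀ - j * (2 * W + 1) / Real.sqrt L with hx
  have eV : b / 2 * L - x₀ * Real.sqrt L + j * (2 * W + 1) = b / 2 * L - x * Real.sqrt L := by
    rw [hx]; field_simp; ring
  rw [eV] at h2 ⊢
  have h3 := key hL b x
  have h4 : x ^ 2 ≤ y ^ 2 := sq_le_sq' (by linarith [abs_le.mp h1]) (by linarith [abs_le.mp h1])
  refine le_trans ?_ (mul_le_mul_of_nonneg_left h2 (Real.exp_pos _).le)
  have e1 : Real.exp (b * (b / 2 * L - x * Real.sqrt L - W)) *
      (κ * H * (Real.exp (-((b / 2 * L - x * Real.sqrt L) ^ 2 / L)) / Real.sqrt L)) =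
      κ * Real.exp (-(b * W)) * H * (Real.exp (b * (b / 2 * L - x * Real.sqrt L) -
        (b / 2 * L - x * Real.sqrt L) ^ 2 / L)) / Real.sqrt L := by
    have : Real.exp (b * (b / 2 * L - x * Real.sqrt L - W)) * Real.exp (-((b / 2 * L - x * Real.sqrt L) ^ 2 / L)) =
      Real.exp (-(b * W)) * Real.exp (b * (b / 2 * L - x * Real.sqrt L) -
        (b / 2 * L - x * Real.sqrt L) ^ 2 / L) := by
      rw [← Real.exp_add, ← Real.exp_add]; congr 1; ring
    calc _ = κ * H / Real.sqrt L * (Real.exp (b * (b / 2 * L - x * Real.sqrt L - W)) *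
          Real.exp (-((b / 2 * L - x * Real.sqrt L) ^ 2 / L))) := by ring
      _ = _ := by rw [this]; ring
  rw [e1, h3]
  have e2 : Real.exp (-y ^ 2) * Real.exp (b ^ 2 / 4 * L) ≤ Real.exp (b ^ 2 / 4 * L - x ^ 2) := by
    rw [← Real.exp_add]
    exact Real.exp_le_exp.mpr (by linarith)
  have e3 : κ * Real.exp (-(b * W)) * Real.exp (-y ^ 2) * (H * Real.exp (b ^ 2 / 4 * L)) / Real.sqrt L =
      κ * Real.exp (-(b * W)) * H * (Real.exp (-y ^ 2) * Real.exp (b ^ 2 / 4 * L)) / Real.sqrt L := by ring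
  rw [e3]
  gcongr

/-- the number of levels -/
lemma floor_half {y : ℝ} (hy : 1 ≤ y) : y / 2 ≤ (⌊y⌋₊ : ℝ) := by
  have h1 := Nat.lt_floor_add_one y
  have h2 : (1:ℝ) ≤ (⌊y⌋₊ : ℝ) := by
    exact_mod_cast Nat.one_le_iff_ne_zero.mpr (by
      intro h
      rw [Nat.floor_eq_zero] at h
      linarith)
  linarith

lemma ev_ge (K : ℝ) : ∀ᶠ L : ℝ in atTop, K ≤ Real.sqrt L :=
  (Real.tendsto_sqrt_atTop.eventually_ge_atTop K)

/-- exponential beats linear -/
lemma ev_exp (K : ℝ) {κ : ℝ} (hκ : 0 < κ) : ∀ᶠ L : ℝ in atTop, K * Real.sqrt L ≤ Real.exp (κ * Real.sqrt L) := by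
  have h1 : Tendsto (fun s : ℝ => Real.exp (κ * s) / s) atTop atTop := by
    have := (tendsto_exp_mul_div_rpow_atTop 1 κ hκ)
    simpa using this
  have h2 := (h1.comp Real.tendsto_sqrt_atTop).eventually_ge_atTop K
  filter_upwards [h2, ev_ge 1] with L h3 h4
  simp only [Function.comp] at h3
  rwa [le_div_iff₀ (by linarith)] at h3

/-- outside every small set -/
lemma clA {c C W B : ℝ} (hc : 0 < c) (hW : 0 < W) {b a : ℝ} (hb : 0 < b) (hbB : b ≤ B) (ha : 0 ≤ a) :
    ∀ᶠ L : ℝ in atTop, ∀ (D : Set ℝ) (X : ℝ → ℝ) (H : ℝ), 0 < H → Dat D X c C W B H L → ∀ F : Set ℝ,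
      MeasurableSet F → volume.real (F ∩ D) ≤ H * Real.exp (-(b ^ 2 / 4 * L) + a * b * Real.sqrt L) →
      c₁ c W B * prof a * (H * Real.exp (b ^ 2 / 4 * L)) ≤ ∫ t in D \ F, X t ^ b := by
  have hB : 0 < B := by linarith
  have ha1 : 0 < 1 + a := by linarith
  set η : ℝ := 1 / (1 + a) with hη
  have hη0 : 0 < η := by positivity
  have hη1 : η ≤ 1 := by rw [hη, div_le_one ha1]; linarith
  have haη : a * η ≤ 1 := by rw [hη, mul_one_div, div_le_one ha1]; linarith
  set y : ℝ := a + 2 * η with hy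
  have hy2 : y ^ 2 ≤ a ^ 2 + 8 := by
    have : y ^ 2 = a ^ 2 + 4 * (a * η) + 4 * (η * η) := by rw [hy]; ring
    have h2 : η * η ≤ 1 := by nlinarith
    rw [this]; linarith
  filter_upwards [ev_exp (2 / c * Real.exp (y ^ 2)) (mul_pos hb hη0), ev_ge 1, ev_ge ((2 * W + 1) / η),
    ev_ge (y / B), eventually_gt_atTop (0:ℝ)] with L h1 h2 h3 h4 hL D X H hH d F mF hF
  set s : ℝ := Real.sqrt L with hs
  have hs0 : 0 < s := by linarith
  have hss : s * s = L := Real.mul_self_sqrt hL.le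
  have hw : 0 < 2 * W + 1 := by positivity
  set N : ℕ := ⌊η * s / (2 * W + 1)⌋₊ with hN
  have hN1 : 1 ≤ η * s / (2 * W + 1) := by
    rw [le_div_iff₀ hw]
    rw [div_le_iff₀ hη0] at h3
    linarith
  have hN2 := floor_half hN1
  have hN3 : (N:ℝ) * (2 * W + 1) ≤ η * s := by
    have := Nat.floor_le (a := η * s / (2 * W + 1)) (by positivity)
    rwa [le_div_iff₀ hw] at this
  have hG : D \ F ⊆ D := Set.sdiff_subset
  have mG : MeasurableSet (D \ F) := d.mD.diff mF
  have hlev : ∀ j : ℕ, j < N → |y - j * (2 * W + 1) / s| ≤ y ∧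
      c / 2 * H * (Real.exp (-((b / 2 * L - y * s + j * (2 * W + 1)) ^ 2 / L)) / s) ≤
        volume.real ((D \ F) ∩ Lv X W (b / 2 * L - y * s + j * (2 * W + 1))) := by
    intro j hj
    have hj1 : (j:ℝ) * (2 * W + 1) ≤ η * s := by
      have : (j:ℝ) ≤ N := by exact_mod_cast hj.le
      nlinarith
    have hj2 : (j:ℝ) * (2 * W + 1) / s ≤ η := by rwa [div_le_iff₀ hs0]
    have hj0 : 0 ≤ (j:ℝ) * (2 * W + 1) / s := by positivity
    set x : ℝ := y - j * (2 * W + 1) / s with hx
    have hx1 : a + η ≤ x := by rw [hx, hy]; linarith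
    have hx2 : x ≤ y := by rw [hx]; linarith
    have hx0 : 0 ≤ x := by linarith
    refine ⟨by rw [abs_of_nonneg hx0]; exact hx2, ?_⟩
    have eV : b / 2 * L - y * s + j * (2 * W + 1) = b / 2 * L - x * s := by
      rw [hx]; field_simp; ring
    rw [eV]
    have hV : |b / 2 * L - x * s| ≤ B * L := by
      rw [abs_le]
      have e1 : x * s ≤ B * L := by
        rw [div_le_iff₀ hB] at h4
        have : x ≤ s * B := hx2.trans h4
        calc x * s ≤ (s * B) * s := by gcongr
          _ = B * L := by rw [← hss]; ring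
      have e2 : 0 ≤ x * s := by positivity
      have e3 : 0 ≤ b / 2 * L := by positivity
      have e4 : b / 2 * L ≤ B * L := by
        apply mul_le_mul_of_nonneg_right _ hL.le
        linarith
      constructor <;> linarith
    have h5 := d.lo _ hV
    have h6 : volume.real (D ∩ Lv X W (b / 2 * L - x * s)) ≤
        volume.real ((D \ F) ∩ Lv X W (b / 2 * L - x * s)) + volume.real (F ∩ D) := by
      refine le_trans (measureReal_mono ?_ ?_) (measureReal_union_le _ _)
      · rintro t ⟨ht1, ht2⟩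
        by_cases h : t ∈ F
        · exact Or.inr ⟨h, ht1⟩
        · exact Or.inl ⟨⟨ht1, h⟩, ht2⟩
      · exact fin_of_sub (Set.union_subset (Set.inter_subset_left.trans hG) Set.inter_subset_right) d.fD
    have h7 : volume.real (F ∩ D) ≤ c / 2 * H * (Real.exp (-((b / 2 * L - x * s) ^ 2 / L)) / s) := by
      refine hF.trans ?_
      rw [key2 hL b x, ← hs]
      have e1 : -(b ^ 2 / 4 * L) + a * b * s + (b * η * s - y ^ 2) ≤ -(b ^ 2 / 4 * L - b * x * s + x ^ 2) := by
        have e2 : b * (a + η) * s ≤ b * x * s := by gcongr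
        have e3 : x ^ 2 ≤ y ^ 2 := by gcongr
        nlinarith
      have e4 : Real.exp (-(b ^ 2 / 4 * L) + a * b * s) * s ≤
          c / 2 * Real.exp (-(b ^ 2 / 4 * L - b * x * s + x ^ 2)) := by
        calc Real.exp (-(b ^ 2 / 4 * L) + a * b * s) * s
            = c / 2 * (Real.exp (-(b ^ 2 / 4 * L) + a * b * s) * ((2 / c * Real.exp (y ^ 2) * s) * Real.exp (-y ^ 2))) := by
              have : Real.exp (y ^ 2) * Real.exp (-y ^ 2) = 1 := by rw [← Real.exp_add]; simp
              calc _ = Real.exp (-(b ^ 2 / 4 * L) + a * b * s) * s * 1 := by ring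
                _ = Real.exp (-(b ^ 2 / 4 * L) + a * b * s) * s * (Real.exp (y ^ 2) * Real.exp (-y ^ 2)) := by rw [this]
                _ = _ := by field_simp
          _ ≤ c / 2 * (Real.exp (-(b ^ 2 / 4 * L) + a * b * s) * (Real.exp (b * η * s) * Real.exp (-y ^ 2))) := by
              gcongr
          _ = c / 2 * Real.exp (-(b ^ 2 / 4 * L) + a * b * s + (b * η * s - y ^ 2)) := by
              rw [← Real.exp_add, ← Real.exp_add]; congr 2 <;> ring
          _ ≤ _ := by gcongr
      calc H * Real.exp (-(b ^ 2 / 4 * L) + a * b * s) = H * (Real.exp (-(b ^ 2 / 4 * L) + a * b * s) * s) / s := by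
            field_simp
        _ ≤ H * (c / 2 * Real.exp (-(b ^ 2 / 4 * L - b * x * s + x ^ 2))) / s := by gcongr
        _ = _ := by ring
    have h8 : c * H * (Real.exp (-((b / 2 * L - x * s) ^ 2 / L)) / s) =
      2 * (c / 2 * H * (Real.exp (-((b / 2 * L - x * s) ^ 2 / L)) / s)) := by ring
    linarith
  have h9 := gen_low d hL hH hW hG mG hb hbB (by positivity : 0 ≤ c / 2) N hlev
  have hi : IntegrableOn (fun t => X t ^ b) (D \ F) := by
    have := (d.int (b / 2) (by rw [abs_of_pos (by positivity)]; linarith)).mono_set hG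
    simpa [show 2 * (b / 2) = b by ring] using this
  refine le_trans ?_ (h9.trans (int_mono d.X0 hi Set.inter_subset_left))
  rw [← hs]
  set M : ℝ := H * Real.exp (b ^ 2 / 4 * L) with hM
  have hM0 : 0 < M := by positivity
  calc c₁ c W B * prof a * M
      = η * s / (2 * W + 1) / 2 * (c / 2 * Real.exp (-(B * W)) * Real.exp (-(a ^ 2 + 8)) * M / s) := by
        have e1 : Real.exp (-(B * W + 8)) = Real.exp (-(B * W)) * Real.exp (-8) := by
          rw [← Real.exp_add]; congr 1; ring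
        have e2 : Real.exp (-(a ^ 2 + 8)) = Real.exp (-a ^ 2) * Real.exp (-8) := by
          rw [← Real.exp_add]; congr 1; ring
        rw [e2]
        unfold c₁ prof
        rw [e1, hη]
        field_simp
        ring
    _ ≤ N * (c / 2 * Real.exp (-(b * W)) * Real.exp (-y ^ 2) * M / s) := by
        have e1 : Real.exp (-(B * W)) ≤ Real.exp (-(b * W)) := Real.exp_le_exp.mpr (by nlinarith)
        have e2 : Real.exp (-(a ^ 2 + 8)) ≤ Real.exp (-y ^ 2) := Real.exp_le_exp.mpr (by linarith)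
        gcongr

/-- at the large values -/
lemma clB {c C W B : ℝ} (hc : 0 < c) (hW : 0 < W) {b a : ℝ} (hb : 0 < b) (hbB : b ≤ B) (ha : 0 ≤ a) :
    ∀ᶠ L : ℝ in atTop, ∀ (D : Set ℝ) (X : ℝ → ℝ) (H : ℝ), 0 < H → Dat D X c C W B H L →
      c₁ c W B * prof a * (H * Real.exp (b ^ 2 / 4 * L)) ≤
        ∫ t in D ∩ {t | Real.exp (b / 2 * L + a * Real.sqrt L) ≤ X t}, X t ^ b := by
  have hB : 0 < B := by linarith
  have ha1 : 0 < 1 + a := by linarith
  set η : ℝ := 1 / (1 + a) with hη
  have hη0 : 0 < η := by positivity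
  have hη1 : η ≤ 1 := by rw [hη, div_le_one ha1]; linarith
  have haη : a * η ≤ 1 := by rw [hη, mul_one_div, div_le_one ha1]; linarith
  set y : ℝ := a + η with hy
  have hy2 : y ^ 2 ≤ a ^ 2 + 8 := by
    have : y ^ 2 = a ^ 2 + 2 * (a * η) + (η * η) := by rw [hy]; ring
    have h2 : η * η ≤ 1 := by nlinarith
    rw [this]; linarith
  filter_upwards [ev_ge 1, ev_ge ((2 * W + 1) / η), ev_ge (2 * y / B), eventually_gt_atTop (0:ℝ)]
    with L h2 h3 h4 hL D X H hH d
  set s : ℝ := Real.sqrt L with hs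
  have hs0 : 0 < s := by linarith
  have hss : s * s = L := Real.mul_self_sqrt hL.le
  have hw : 0 < 2 * W + 1 := by positivity
  set N : ℕ := ⌊η * s / (2 * W + 1)⌋₊ with hN
  have hN1 : 1 ≤ η * s / (2 * W + 1) := by
    rw [le_div_iff₀ hw]
    rw [div_le_iff₀ hη0] at h3
    linarith
  have hN2 := floor_half hN1
  have hN3 : (N:ℝ) * (2 * W + 1) ≤ η * s := by
    have := Nat.floor_le (a := η * s / (2 * W + 1)) (by positivity)
    rwa [le_div_iff₀ hw] at this
  set x₀ : ℝ := -(a + W / s) with hx₀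
  have hlev : ∀ j : ℕ, j < N → |x₀ - j * (2 * W + 1) / s| ≤ y ∧
      c * H * (Real.exp (-((b / 2 * L - x₀ * s + j * (2 * W + 1)) ^ 2 / L)) / s) ≤
        volume.real (D ∩ Lv X W (b / 2 * L - x₀ * s + j * (2 * W + 1))) := by
    intro j hj
    have hj1 : W + (j:ℝ) * (2 * W + 1) ≤ η * s := by
      have : (j:ℝ) + 1 ≤ N := by exact_mod_cast hj
      nlinarith
    have hj2 : W / s + (j:ℝ) * (2 * W + 1) / s ≤ η := by
      rw [← add_div, div_le_iff₀ hs0]; exact hj1
    have hj0 : 0 ≤ (j:ℝ) * (2 * W + 1) / s := by positivity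
    have hW0 : 0 ≤ W / s := by positivity
    set x : ℝ := x₀ - j * (2 * W + 1) / s with hx
    have hx1 : -y ≤ x := by rw [hx, hy, hx₀]; linarith
    have hx2 : x ≤ 0 := by rw [hx, hx₀]; linarith
    refine ⟨by rw [abs_of_nonpos hx2]; linarith, ?_⟩
    have eV : b / 2 * L - x₀ * s + j * (2 * W + 1) = b / 2 * L - x * s := by
      rw [hx]; field_simp; ring
    rw [eV]
    have hV : |b / 2 * L - x * s| ≤ B * L := by
      have e1 : -(x * s) ≤ B / 2 * L := by
        rw [div_le_iff₀ hB] at h4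
        have h5 : -x ≤ s * (B / 2) := by linarith
        calc -(x * s) = (-x) * s := by ring
          _ ≤ (s * (B / 2)) * s := by gcongr
          _ = B / 2 * L := by rw [← hss]; ring
      have e2 : 0 ≤ -(x * s) := by nlinarith
      have e3 : 0 ≤ b / 2 * L := by positivity
      have e4 : b / 2 * L ≤ B / 2 * L := by
        apply mul_le_mul_of_nonneg_right _ hL.le
        linarith
      rw [abs_of_nonneg (by linarith)]
      linarith
    exact d.lo _ hV
  have h9 := gen_low d hL hH hW (le_refl D) d.mD hb hbB hc.le N hlev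
  have hi : IntegrableOn (fun t => X t ^ b) D := by
    have := (d.int (b / 2) (by rw [abs_of_pos (by positivity)]; linarith))
    simpa [show 2 * (b / 2) = b by ring] using this
  rw [← hs] at h9
  have hsub : D ∩ Pc X (b / 2 * L - x₀ * s - W) (b / 2 * L - x₀ * s + N * (2 * W + 1) - W) ⊆
      D ∩ {t | Real.exp (b / 2 * L + a * s) ≤ X t} := by
    rintro t ⟨h1, h2, _⟩
    refine ⟨h1, ?_⟩
    have : b / 2 * L - x₀ * s - W = b / 2 * L + a * s := by
      rw [hx₀]; field_simp; ring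
    rwa [this] at h2
  refine le_trans ?_ (h9.trans (int_mono d.X0 (hi.mono_set Set.inter_subset_left) hsub))
  set M : ℝ := H * Real.exp (b ^ 2 / 4 * L) with hM
  have hM0 : 0 < M := by positivity
  calc c₁ c W B * prof a * M
      = η * s / (2 * W + 1) / 2 * (c / 2 * Real.exp (-(B * W)) * Real.exp (-(a ^ 2 + 8)) * M / s) := by
        have e1 : Real.exp (-(B * W + 8)) = Real.exp (-(B * W)) * Real.exp (-8) := by
          rw [← Real.exp_add]; congr 1; ring
        have e2 : Real.exp (-(a ^ 2 + 8)) = Real.exp (-a ^ 2) * Real.exp (-8) := by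
          rw [← Real.exp_add]; congr 1; ring
        rw [e2]
        unfold c₁ prof
        rw [e1, hη]
        field_simp
        ring
    _ ≤ N * (c * Real.exp (-(b * W)) * Real.exp (-y ^ 2) * M / s) := by
        have e1 : Real.exp (-(B * W)) ≤ Real.exp (-(b * W)) := Real.exp_le_exp.mpr (by nlinarith)
        have e2 : Real.exp (-(a ^ 2 + 8)) ≤ Real.exp (-y ^ 2) := Real.exp_le_exp.mpr (by linarith)
        have e3 : c / 2 ≤ c := by linarith
        gcongr

end Run7.h5.CS
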