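import Pool.Agent.Run7.h5.CS.Fin

set_option autoImplicit false

/-!
CarryingSets (helper5): the theorem in the variable `L = log log T`.
-/

namespace Run7.h5.CS

open MeasureTheory Filter Topology

/-- the set of the large values -/
def BigL (E : Set ℝ) (T H k a : ℝ) : Set ℝ :=
  (E ∩ Set.Icc T (T + H)) ∩
    {t | Real.exp (k / 2 * Real.log (Real.log T) + a * Real.sqrt (Real.log (Real.log T))) ≤ zx t}

theorem thm : ∀ B ε : ℝ, 0 < B → 0 < ε → ∃ (E : Set ℝ) (c C : ℝ), MeasurableSet E ∧ 0 < c ∧ 0 < C ∧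
    ∀ k a α : ℝ, 0 < k → k ≤ B → 0 ≤ a → 0 ≤ α → α < 1 → ∀ᶠ T : ℝ in atTop, 0 < Real.log T ∧ ∀ H : ℝ,
      T / Real.log T ^ α ≤ H → H ≤ T →
      (1 - ε) * H ≤ volume.real (E ∩ Set.Icc T (T + H)) ∧
      (∀ F : Set ℝ, MeasurableSet F → volume.real (F ∩ Set.Icc T (T + H)) ≤
          H * Real.exp (-(k ^ 2 / 4 * Real.log (Real.log T)) + a * k * Real.sqrt (Real.log (Real.log T))) →
        c * prof a * (H * Real.exp (k ^ 2 / 4 * Real.log (Real.log T))) ≤
          ∫ t in (E ∩ Set.Icc T (T + H)) \ F, zx t ^ k ∧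
        c * prof a * (H * Real.exp (k ^ 2 / 4 * Real.log (Real.log T))) ≤
          ∫ t in Set.Icc T (T + H) \ F, zx t ^ k) ∧
      (volume.real (BigL E T H k (-a)) ≤
          H * Real.exp (-(k ^ 2 / 4 * Real.log (Real.log T)) + a * k * Real.sqrt (Real.log (Real.log T))) ∧
        ∫ t in (E ∩ Set.Icc T (T + H)) \ BigL E T H k (-a), zx t ^ k ≤
          C * prof a * (H * Real.exp (k ^ 2 / 4 * Real.log (Real.log T)))) ∧
      (∀ F : Set ℝ, MeasurableSet F → volume.real (F ∩ Set.Icc T (T + H)) ≤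
          H * Real.exp (-(k ^ 2 / 4 * Real.log (Real.log T)) - a * k * Real.sqrt (Real.log (Real.log T))) →
        ∫ t in E ∩ Set.Icc T (T + H) ∩ F, zx t ^ k ≤
          C * prof a * (H * Real.exp (k ^ 2 / 4 * Real.log (Real.log T)))) ∧
      (volume.real (BigL E T H k a) ≤
          H * Real.exp (-(k ^ 2 / 4 * Real.log (Real.log T)) - a * k * Real.sqrt (Real.log (Real.log T))) ∧
        c * prof a * (H * Real.exp (k ^ 2 / 4 * Real.log (Real.log T))) ≤ ∫ t in BigL E T H k a, zx t ^ k) := by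
  intro B ε hB hε
  obtain ⟨E, c, C, W, mE, hc, hC, hW, h⟩ := core (B + 1) ε (by linarith) hε
  set K : ℝ := 6 * C + (2 * C * Real.exp ((B + 1) * W) / W + C) * 16 + 1 with hK
  have hK0 : 0 < K := by positivity
  refine ⟨E, c₁ c W (B + 1), K, mE, c₁_pos hc hW, hK0, fun k a α hk hkB ha h0 h1 => ?_⟩
  have hkB1 : k ≤ B + 1 := by linarith
  have hkB2 : k + 1 ≤ B + 1 := by linarith
  filter_upwards [h α h0 h1, Real.tendsto_log_atTop.eventually_gt_atTop 0,
    ev_loglog (clA (c := c) (C := C) hc hW hk hkB1 ha), ev_loglog (clB (c := c) (C := C) hc hW hk hkB1 ha),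
    ev_loglog (clC (c := c) (C := C) hC.le hW hk hkB1 ha), ev_loglog (clD (c := c) (C := C) hC.le hW hk hkB2 ha),
    ev_loglog (clM (c := c) (C := C) hC.le hW a hk hkB2),
    ev_loglog (clM (c := c) (C := C) hC.le hW (-a) hk hkB2)] with T q1 q2 qA qB qC qD qM qM'
  refine ⟨q2, fun H hH1 hH2 => ?_⟩
  obtain ⟨hH, hs, d⟩ := q1 H hH1 hH2
  set L : ℝ := Real.log (Real.log T) with hL
  have hfin : volume (Set.Icc T (T + H)) ≠ ⊤ := by
    rw [Real.volume_Icc]; exact ENNReal.ofReal_ne_top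
  have hFD : ∀ F : Set ℝ, volume.real (F ∩ (E ∩ Set.Icc T (T + H))) ≤ volume.real (F ∩ Set.Icc T (T + H)) := by
    intro F
    exact measureReal_mono (by rintro t ⟨h1, _, h2⟩; exact ⟨h1, h2⟩) (fin_of_sub Set.inter_subset_right hfin)
  refine ⟨hs, ?_, ⟨?_, ?_⟩, ?_, ?_, ?_⟩
  · intro F mF hF
    have h5 := qA _ zx H hH d F mF ((hFD F).trans hF)
    refine ⟨h5, h5.trans ?_⟩
    apply int_mono zx_nonneg ((zx_int hk.le _ _).mono_set Set.sdiff_subset)
    rintro t ⟨⟨_, h6⟩, h7⟩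
    exact ⟨h6, h7⟩
  · refine (qM' _ zx H hH d).trans (le_of_eq ?_)
    congr 2
    ring
  · have h5 := qC _ zx H hH d
    have e : (E ∩ Set.Icc T (T + H)) \ BigL E T H k (-a) =
        (E ∩ Set.Icc T (T + H)) ∩ {t | zx t < Real.exp (k / 2 * L - a * Real.sqrt L)} := by
      ext t
      have e1 : k / 2 * L - a * Real.sqrt L = k / 2 * L + -a * Real.sqrt L := by ring
      rw [e1]
      constructor
      · rintro ⟨h6, h7⟩
        refine ⟨h6, ?_⟩
        show zx t < Real.exp (k / 2 * L + -a * Real.sqrt L)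
        rcases lt_or_ge (zx t) (Real.exp (k / 2 * L + -a * Real.sqrt L)) with h8 | h8
        · exact h8
        · exact absurd ⟨h6, h8⟩ h7
      · rintro ⟨h6, h7⟩
        have h7' : zx t < Real.exp (k / 2 * L + -a * Real.sqrt L) := h7
        refine ⟨h6, fun h8 => ?_⟩
        have h8' : Real.exp (k / 2 * L + -a * Real.sqrt L) ≤ zx t := h8.2
        linarith
    rw [e]
    refine h5.trans ?_
    have hp := (prof_pos ha).le
    have : 2 * C * Real.exp ((B + 1) * W) / W + 1 ≤ K := by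
      have : 0 ≤ 2 * C * Real.exp ((B + 1) * W) / W := by positivity
      rw [hK]
      linarith
    gcongr
  · intro F mF hF
    exact qD _ zx H hH d F mF ((hFD F).trans hF)
  · exact qM _ zx H hH d
  · exact qB _ zx H hH d

end Run7.h5.CS
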