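import Pool.Agent.Run7.h5.CS.Low

set_option autoImplicit false

/-!
CarryingSets (helper5): the upper bounds.
-/

namespace Run7.h5.CS

open MeasureTheory Filter Topology

lemma term_le {D : Set ℝ} {X : ℝ → ℝ} {c C W B H L : ℝ} (d : Dat D X c C W B H L) (hL : 0 < L)
    {b x V : ℝ} (hV : V = b / 2 * L - x * Real.sqrt L) (hVB : |V| ≤ B * L) :
    Real.exp (b * (V + W)) * volume.real (D ∩ Lv X W V) ≤
      C * Real.exp (b * W) * (H * Real.exp (b ^ 2 / 4 * L)) * (Real.exp (-x ^ 2) / Real.sqrt L) := by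
  refine le_trans (mul_le_mul_of_nonneg_left (d.hi V hVB) (Real.exp_pos _).le) (le_of_eq ?_)
  have h3 := key hL b x
  rw [← hV] at h3
  have e1 : Real.exp (b * (V + W)) * Real.exp (-(V ^ 2 / L)) =
      Real.exp (b * W) * (Real.exp (b ^ 2 / 4 * L) * Real.exp (-x ^ 2)) := by
    rw [← Real.exp_add, ← Real.exp_add, ← Real.exp_add]
    congr 1
    linarith
  calc _ = C * H / Real.sqrt L * (Real.exp (b * (V + W)) * Real.exp (-(V ^ 2 / L))) := by ring
    _ = _ := by rw [e1]; ring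

lemma sum_le {s W a : ℝ} (hs : 0 < s) (hW : 0 < W) (ha : 0 ≤ a) (h1 : 2 * W * (1 + a) ≤ s) (N : ℕ) :
    ∑ j ∈ Finset.range N, Real.exp (-(a + 2 * W / s * (j + 1 / 2)) ^ 2) / s ≤ 2 / W * prof a := by
  have hh : 0 < 2 * W / s := by positivity
  have hha : 2 * W / s * (1 + a) ≤ 1 := by
    rw [div_mul_eq_mul_div, div_le_one hs]; exact h1
  have := gsum ha hh hha N
  have e : ∑ j ∈ Finset.range N, Real.exp (-(a + 2 * W / s * (j + 1 / 2)) ^ 2) / s =
      1 / (2 * W) * ∑ j ∈ Finset.range N, Real.exp (-(a + 2 * W / s * (j + 1 / 2)) ^ 2) * (2 * W / s) := by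
    rw [Finset.mul_sum]
    apply Finset.sum_congr rfl
    intro j _
    field_simp
  rw [e]
  calc 1 / (2 * W) * ∑ j ∈ Finset.range N, Real.exp (-(a + 2 * W / s * (j + 1 / 2)) ^ 2) * (2 * W / s)
      ≤ 1 / (2 * W) * (4 * prof a) := by gcongr
    _ = _ := by field_simp; ring

/-- descending levels -/
lemma gen_desc {D : Set ℝ} {X : ℝ → ℝ} {c C W B H L : ℝ} (d : Dat D X c C W B H L) (hL : 0 < L) (hH : 0 < H)
    (hC : 0 ≤ C) (hW : 0 < W) {b a : ℝ} (hb : 0 < b) (hbB : b ≤ B) (ha : 0 ≤ a)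
    (h1 : 2 * W * (1 + a) ≤ Real.sqrt L) (N : ℕ)
    (h : ∀ j : ℕ, j < N → |b / 2 * L - a * Real.sqrt L - 2 * W * j - W| ≤ B * L) :
    ∫ t in D ∩ Pc X (b / 2 * L - a * Real.sqrt L - 2 * W * N) (b / 2 * L - a * Real.sqrt L), X t ^ b ≤
      2 * C * Real.exp (B * W) / W * prof a * (H * Real.exp (b ^ 2 / 4 * L)) := by
  have hs : 0 < Real.sqrt L := Real.sqrt_pos.mpr hL
  have hi : IntegrableOn (fun t => X t ^ b) D := by
    have := (d.int (b / 2) (by rw [abs_of_pos (by positivity)]; linarith))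
    simpa [show 2 * (b / 2) = b by ring] using this
  refine (up_desc d.mX d.X0 d.mD d.fD hb.le hi hW N).trans ?_
  set M : ℝ := H * Real.exp (b ^ 2 / 4 * L) with hM
  have hM0 : 0 < M := by positivity
  have e : ∀ j ∈ Finset.range N, Real.exp (b * (b / 2 * L - a * Real.sqrt L - 2 * W * j - W + W)) *
      volume.real (D ∩ Lv X W (b / 2 * L - a * Real.sqrt L - 2 * W * j - W)) ≤
      C * Real.exp (b * W) * M * (Real.exp (-(a + 2 * W / Real.sqrt L * (j + 1 / 2)) ^ 2) / Real.sqrt L) := by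
    intro j hj
    apply term_le d hL _ (h j (Finset.mem_range.mp hj))
    field_simp
    ring
  refine (Finset.sum_le_sum e).trans ?_
  rw [← Finset.mul_sum]
  have h2 := sum_le hs hW ha h1 N
  calc _ ≤ C * Real.exp (b * W) * M * (2 / W * prof a) := by gcongr
    _ ≤ C * Real.exp (B * W) * M * (2 / W * prof a) := by
      have := (prof_pos ha).le
      gcongr
    _ = _ := by ring

/-- ascending levels -/
lemma gen_asc {D : Set ℝ} {X : ℝ → ℝ} {c C W B H L : ℝ} (d : Dat D X c C W B H L) (hL : 0 < L) (hH : 0 < H)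
    (hC : 0 ≤ C) (hW : 0 < W) {b a : ℝ} (hb : 0 < b) (hbB : b ≤ B) (ha : 0 ≤ a)
    (h1 : 2 * W * (1 + a) ≤ Real.sqrt L) (N : ℕ)
    (h : ∀ j : ℕ, j < N → |b / 2 * L + a * Real.sqrt L + 2 * W * j + W| ≤ B * L) :
    ∫ t in D ∩ Pc X (b / 2 * L + a * Real.sqrt L) (b / 2 * L + a * Real.sqrt L + 2 * W * N), X t ^ b ≤
      2 * C * Real.exp (B * W) / W * prof a * (H * Real.exp (b ^ 2 / 4 * L)) := by
  have hs : 0 < Real.sqrt L := Real.sqrt_pos.mpr hL
  have hi : IntegrableOn (fun t => X t ^ b) D := by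
    have := (d.int (b / 2) (by rw [abs_of_pos (by positivity)]; linarith))
    simpa [show 2 * (b / 2) = b by ring] using this
  refine (up_asc d.mX d.X0 d.mD d.fD hb.le hi hW N).trans ?_
  set M : ℝ := H * Real.exp (b ^ 2 / 4 * L) with hM
  have hM0 : 0 < M := by positivity
  have e : ∀ j ∈ Finset.range N, Real.exp (b * (b / 2 * L + a * Real.sqrt L + 2 * W * j + W + W)) *
      volume.real (D ∩ Lv X W (b / 2 * L + a * Real.sqrt L + 2 * W * j + W)) ≤
      C * Real.exp (b * W) * M * (Real.exp (-(a + 2 * W / Real.sqrt L * (j + 1 / 2)) ^ 2) / Real.sqrt L) := by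
    intro j hj
    have e0 : (a + 2 * W / Real.sqrt L * (j + 1 / 2)) ^ 2 = (-(a + 2 * W / Real.sqrt L * (j + 1 / 2))) ^ 2 := by ring
    rw [e0]
    apply term_le d hL _ (h j (Finset.mem_range.mp hj))
    field_simp
    ring
  refine (Finset.sum_le_sum e).trans ?_
  rw [← Finset.mul_sum]
  have h2 := sum_le hs hW ha h1 N
  calc _ ≤ C * Real.exp (b * W) * M * (2 / W * prof a) := by gcongr
    _ ≤ C * Real.exp (B * W) * M * (2 / W * prof a) := by
      have := (prof_pos ha).le
      gcongr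
    _ = _ := by ring

lemma int_union {X : ℝ → ℝ} (X0 : ∀ t, 0 ≤ X t) {A A' G : Set ℝ} {b : ℝ}
    (mA : MeasurableSet A) (mA' : MeasurableSet A')
    (hi : IntegrableOn (fun t => X t ^ b) (A ∪ A')) (h : G ⊆ A ∪ A') :
    ∫ t in G, X t ^ b ≤ (∫ t in A, X t ^ b) + ∫ t in A', X t ^ b := by
  have h1 := int_mono X0 hi h
  have e1 : A ∪ A' = A ∪ (A' \ A) := (Set.union_sdiff_self).symm
  have h2 : ∫ t in A ∪ A', X t ^ b = (∫ t in A, X t ^ b) + ∫ t in A' \ A, X t ^ b := by
    conv_lhs => rw [e1]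
    exact setIntegral_union Set.disjoint_sdiff_right (mA'.diff mA) (hi.mono_set Set.subset_union_left)
      (hi.mono_set (Set.sdiff_subset.trans Set.subset_union_right))
  have h3 : ∫ t in A' \ A, X t ^ b ≤ ∫ t in A', X t ^ b :=
    int_mono X0 (hi.mono_set Set.subset_union_right) Set.sdiff_subset
  linarith

/-- the values below `exp (b/2 L - a √L)` -/
lemma clC {c C W B : ℝ} (hC : 0 ≤ C) (hW : 0 < W) {b a : ℝ} (hb : 0 < b) (hbB : b ≤ B) (ha : 0 ≤ a) :
    ∀ᶠ L : ℝ in atTop, ∀ (D : Set ℝ) (X : ℝ → ℝ) (H : ℝ), 0 < H → Dat D X c C W B H L →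
      ∫ t in D ∩ {t | X t < Real.exp (b / 2 * L - a * Real.sqrt L)}, X t ^ b ≤
        (2 * C * Real.exp (B * W) / W + 1) * prof a * (H * Real.exp (b ^ 2 / 4 * L)) := by
  have hB : 0 < B := by linarith
  have hp := prof_pos ha
  have hb4 : 0 < b ^ 2 / 4 := by positivity
  have h5 : ∀ᶠ L : ℝ in atTop, 1 / prof a ≤ Real.exp (b ^ 2 / 4 * L) :=
    (Real.tendsto_exp_atTop.comp (tendsto_id.const_mul_atTop hb4)).eventually_ge_atTop _
  filter_upwards [ev_ge (2 * W * (1 + a)), ev_ge (2 * a / b), h5, eventually_ge_atTop (W / B + 1),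
    eventually_gt_atTop (0:ℝ)] with L h1 h2 h5 h6 hL D X H hH d
  set s : ℝ := Real.sqrt L with hs
  have hs0 : 0 < s := Real.sqrt_pos.mpr hL
  have hss : s * s = L := Real.mul_self_sqrt hL.le
  set V : ℝ := b / 2 * L - a * s with hV
  have hV0 : 0 ≤ V := by
    rw [div_le_iff₀ hb] at h2
    have : a * s ≤ (s * b / 2) * s := by
      apply mul_le_mul_of_nonneg_right _ hs0.le
      linarith
    have e : (s * b / 2) * s = b / 2 * L := by rw [← hss]; ring
    rw [hV]; linarith
  have hVB : V ≤ B * L := by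
    have e1 : b / 2 * L ≤ B * L := mul_le_mul_of_nonneg_right (by linarith) hL.le
    have e2 : 0 ≤ a * s := by positivity
    rw [hV]; linarith
  have hWB : W ≤ B * L := by
    have : W / B ≤ L := by linarith
    rw [div_le_iff₀ hB] at this
    linarith
  set N : ℕ := ⌈V / (2 * W)⌉₊ with hN
  have hN1 : V - 2 * W * N ≤ 0 := by
    have := Nat.le_ceil (V / (2 * W))
    rw [div_le_iff₀ (by positivity)] at this
    linarith
  have hlev : ∀ j : ℕ, j < N → |b / 2 * L - a * s - 2 * W * j - W| ≤ B * L := by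
    intro j hj
    rw [← hV]
    have h7 := Nat.lt_ceil.mp hj
    rw [lt_div_iff₀ (by positivity)] at h7
    have h8 : 0 ≤ 2 * W * (j:ℝ) := by positivity
    rw [abs_le]
    constructor <;> linarith
  have h9 := gen_desc d hL hH hC hW hb hbB ha h1 N hlev
  rw [← hs, ← hV] at h9
  have hi : IntegrableOn (fun t => X t ^ b) D := by
    have := (d.int (b / 2) (by rw [abs_of_pos (by positivity)]; linarith))
    simpa [show 2 * (b / 2) = b by ring] using this
  have mlow : MeasurableSet (D ∩ {t | X t ≤ Real.exp 0}) := d.mD.inter (measurableSet_le d.mX measurable_const)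
  have h10 : ∫ t in D ∩ {t | X t ≤ Real.exp 0}, X t ^ b ≤ H := by
    have := int_le d.X0 (v := 0) mlow (fin_of_sub Set.inter_subset_left d.fD) hb.le
      (hi.mono_set Set.inter_subset_left) (fun t ht => ht.2)
    have e1 : Real.exp (b * 0) = 1 := by rw [mul_zero, Real.exp_zero]
    rw [e1, one_mul] at this
    exact this.trans ((mono_real Set.inter_subset_left d.fD).trans d.vD)
  have h11 : H ≤ 1 * prof a * (H * Real.exp (b ^ 2 / 4 * L)) := by
    rw [div_le_iff₀ hp] at h5
    nlinarith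
  have h12 := int_union (b := b) (G := D ∩ {t | X t < Real.exp V}) d.X0 (d.mD.inter (mPc d.mX (V - 2 * W * N) V))
    mlow (hi.mono_set (Set.union_subset Set.inter_subset_left Set.inter_subset_left)) (by
      rintro t ⟨ht, ht2⟩
      rcases le_or_gt (Real.exp (V - 2 * W * N)) (X t) with h | h
      · exact Or.inl ⟨ht, h, ht2⟩
      · exact Or.inr ⟨ht, h.le.trans (Real.exp_le_exp.mpr hN1)⟩)
  calc _ ≤ _ := h12
    _ ≤ 2 * C * Real.exp (B * W) / W * prof a * (H * Real.exp (b ^ 2 / 4 * L)) +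
        1 * prof a * (H * Real.exp (b ^ 2 / 4 * L)) := by linarith
    _ = _ := by ring

/-- the values above `exp (b/2 L + a √L)` -/
lemma clD' {c C W B : ℝ} (hC : 0 ≤ C) (hW : 0 < W) {b a : ℝ} (hb : 0 < b) (hbB : b + 1 ≤ B) (ha : 0 ≤ a) :
    ∀ᶠ L : ℝ in atTop, ∀ (D : Set ℝ) (X : ℝ → ℝ) (H : ℝ), 0 < H → Dat D X c C W B H L →
      ∫ t in D ∩ {t | Real.exp (b / 2 * L + a * Real.sqrt L) ≤ X t}, X t ^ b ≤
        (2 * C * Real.exp (B * W) / W + C) * prof a * (H * Real.exp (b ^ 2 / 4 * L)) := by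
  have hB : 0 < B := by linarith
  have hp := prof_pos ha
  have h5 : ∀ᶠ L : ℝ in atTop, 1 / prof a ≤ Real.exp (1 / 2 * L) :=
    (Real.tendsto_exp_atTop.comp (tendsto_id.const_mul_atTop (by norm_num : (0:ℝ) < 1 / 2))).eventually_ge_atTop _
  filter_upwards [ev_ge (2 * W * (1 + a)), ev_ge (4 * a), h5, eventually_ge_atTop (4 * W),
    eventually_gt_atTop (0:ℝ)] with L h1 h2 h5 h6 hL D X H hH d
  set s : ℝ := Real.sqrt L with hs
  have hs0 : 0 < s := Real.sqrt_pos.mpr hL
  have hss : s * s = L := Real.mul_self_sqrt hL.le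
  set V : ℝ := b / 2 * L + a * s with hV
  have hV0 : 0 ≤ V := by rw [hV]; positivity
  have has : a * s ≤ 1 / 4 * L := by
    have : a * s ≤ (s / 4) * s := by
      apply mul_le_mul_of_nonneg_right _ hs0.le
      linarith
    have e : (s / 4) * s = 1 / 4 * L := by rw [← hss]; ring
    linarith
  set V' : ℝ := b / 2 * L + 3 / 4 * L with hV'
  set N : ℕ := ⌈(V' - V) / (2 * W)⌉₊ with hN
  have hN1 : V' ≤ V + 2 * W * N := by
    have := Nat.le_ceil ((V' - V) / (2 * W))
    rw [div_le_iff₀ (by positivity)] at this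
    linarith
  have hBL : (b + 1) * L ≤ B * L := mul_le_mul_of_nonneg_right hbB hL.le
  have hlev : ∀ j : ℕ, j < N → |b / 2 * L + a * s + 2 * W * j + W| ≤ B * L := by
    intro j hj
    rw [← hV]
    have h7 := Nat.lt_ceil.mp hj
    rw [lt_div_iff₀ (by positivity)] at h7
    have h8 : 0 ≤ 2 * W * (j:ℝ) := by positivity
    have h9 : 0 ≤ b / 2 * L := by positivity
    rw [abs_le]
    constructor
    · have : 0 ≤ B * L := by positivity
      linarith
    · linarith
  have h9 := gen_asc d hL hH hC hW hb (by linarith) ha h1 N hlev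
  rw [← hs, ← hV] at h9
  have hi : IntegrableOn (fun t => X t ^ b) D := by
    have := (d.int (b / 2) (by rw [abs_of_pos (by positivity)]; linarith))
    simpa [show 2 * (b / 2) = b by ring] using this
  have hkB : |b / 2 + 1| ≤ B := by rw [abs_of_pos (by positivity)]; linarith
  have hi2 : IntegrableOn (fun t => X t ^ (b + 2)) D := by
    have := (d.int (b / 2 + 1) hkB)
    simpa [show 2 * (b / 2 + 1) = b + 2 by ring] using this
  have mhi : MeasurableSet (D ∩ {t | Real.exp V' ≤ X t}) := d.mD.inter (measurableSet_le measurable_const d.mX)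
  have h10 : ∫ t in D ∩ {t | Real.exp V' ≤ X t}, X t ^ b ≤ C * prof a * (H * Real.exp (b ^ 2 / 4 * L)) := by
    have h11 : ∫ t in D ∩ {t | Real.exp V' ≤ X t}, X t ^ b ≤
        ∫ t in D ∩ {t | Real.exp V' ≤ X t}, Real.exp (-(2 * V')) * X t ^ (b + 2) := by
      apply setIntegral_mono_on (hi.mono_set Set.inter_subset_left)
        ((hi2.mono_set Set.inter_subset_left).const_mul _) mhi
      intro t ht
      have h12 : Real.exp V' ≤ X t := ht.2
      have h13 : 0 < X t := lt_of_lt_of_le (Real.exp_pos _) h12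
      have h14 : X t ^ (b + 2) = X t ^ b * X t ^ (2:ℕ) := by
        rw [Real.rpow_add h13]; norm_num
      rw [h14]
      have h15 : Real.exp (2 * V') ≤ X t ^ (2:ℕ) := by
        have : Real.exp (2 * V') = Real.exp V' ^ (2:ℕ) := by rw [← Real.exp_nat_mul]; norm_num
        rw [this]
        gcongr
      have h16 : 1 ≤ Real.exp (-(2 * V')) * X t ^ (2:ℕ) := by
        rw [Real.exp_neg]
        rw [← div_eq_inv_mul, le_div_iff₀ (Real.exp_pos _), one_mul]
        exact h15
      have h17 : 0 ≤ X t ^ b := Real.rpow_nonneg h13.le _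
      calc X t ^ b = X t ^ b * 1 := by ring
        _ ≤ X t ^ b * (Real.exp (-(2 * V')) * X t ^ (2:ℕ)) := by gcongr
        _ = _ := by ring
    rw [integral_const_mul] at h11
    have h18 : ∫ t in D ∩ {t | Real.exp V' ≤ X t}, X t ^ (b + 2) ≤ ∫ t in D, X t ^ (b + 2) :=
      int_mono d.X0 hi2 Set.inter_subset_left
    have h19 : ∫ t in D, X t ^ (b + 2) ≤ C * H * Real.exp ((b / 2 + 1) ^ 2 * L) := by
      have := d.mom (b / 2 + 1) hkB
      simpa [show 2 * (b / 2 + 1) = b + 2 by ring] using this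
    have h20 : Real.exp (-(2 * V')) * (C * H * Real.exp ((b / 2 + 1) ^ 2 * L)) =
        C * H * Real.exp (b ^ 2 / 4 * L) * Real.exp (-(1 / 2 * L)) := by
      have : Real.exp (-(2 * V')) * Real.exp ((b / 2 + 1) ^ 2 * L) =
          Real.exp (b ^ 2 / 4 * L) * Real.exp (-(1 / 2 * L)) := by
        rw [← Real.exp_add, ← Real.exp_add]
        congr 1
        rw [hV']; ring
      calc _ = C * H * (Real.exp (-(2 * V')) * Real.exp ((b / 2 + 1) ^ 2 * L)) := by ring
        _ = _ := by rw [this]; ring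
    have h21 : Real.exp (-(1 / 2 * L)) ≤ prof a := by
      rw [Real.exp_neg]
      rw [one_div] at h5
      exact inv_le_of_inv_le₀ hp h5
    calc _ ≤ _ := h11
      _ ≤ Real.exp (-(2 * V')) * (C * H * Real.exp ((b / 2 + 1) ^ 2 * L)) := by
        apply mul_le_mul_of_nonneg_left (h18.trans h19) (Real.exp_pos _).le
      _ = _ := h20
      _ ≤ C * H * Real.exp (b ^ 2 / 4 * L) * prof a := by gcongr
      _ = _ := by ring
  have h12 := int_union (b := b) (G := D ∩ {t | Real.exp V ≤ X t}) d.X0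
    (d.mD.inter (mPc d.mX V (V + 2 * W * N)))
    mhi (hi.mono_set (Set.union_subset Set.inter_subset_left Set.inter_subset_left)) (by
      rintro t ⟨ht, ht2⟩
      rcases lt_or_ge (X t) (Real.exp (V + 2 * W * N)) with h | h
      · exact Or.inl ⟨ht, ht2, h⟩
      · exact Or.inr ⟨ht, (Real.exp_le_exp.mpr hN1).trans h⟩)
  calc _ ≤ _ := h12
    _ ≤ 2 * C * Real.exp (B * W) / W * prof a * (H * Real.exp (b ^ 2 / 4 * L)) +
        C * prof a * (H * Real.exp (b ^ 2 / 4 * L)) := by linarith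
    _ = _ := by ring

end Run7.h5.CS
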