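import Pool.Agent.Run7.h5.CS.Up

set_option autoImplicit false

/-!
CarryingSets (helper5): the measure of the set of large values, and the integral over small sets.
-/

namespace Run7.h5.CS

open MeasureTheory Filter Topology

/-- Chernoff's bound -/
lemma chern {D : Set ℝ} {X : ℝ → ℝ} {c C W B H L : ℝ} (d : Dat D X c C W B H L) (hL : 0 < L) {V : ℝ}
    (hV0 : 0 ≤ V) (hV : V ≤ B * L) :
    volume.real (D ∩ {t | Real.exp V ≤ X t}) ≤ C * H * Real.exp (-(V ^ 2 / L)) := by
  have hk0 : 0 ≤ V / L := by positivity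
  have hk : |V / L| ≤ B := by rw [abs_of_nonneg hk0, div_le_iff₀ hL]; exact hV
  have hi := d.int _ hk
  have h1 := int_ge (v := V) (b := 2 * (V / L)) (d.mD.inter (measurableSet_le measurable_const d.mX))
    (fin_of_sub Set.inter_subset_left d.fD) (by positivity) (hi.mono_set Set.inter_subset_left)
    (fun t ht => ht.2)
  have h2 := int_mono (A := D ∩ {t | Real.exp V ≤ X t}) d.X0 hi Set.inter_subset_left
  have h3 := d.mom _ hk
  have h4 : Real.exp (2 * (V / L) * V) * volume.real (D ∩ {t | Real.exp V ≤ X t}) ≤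
      C * H * Real.exp ((V / L) ^ 2 * L) := h1.trans (h2.trans h3)
  have e1 : (V / L) ^ 2 * L = V ^ 2 / L := by field_simp
  have e2 : 2 * (V / L) * V = 2 * (V ^ 2 / L) := by ring
  rw [e1, e2] at h4
  have h5 : Real.exp (-(2 * (V ^ 2 / L))) * (Real.exp (2 * (V ^ 2 / L)) *
      volume.real (D ∩ {t | Real.exp V ≤ X t})) ≤
      Real.exp (-(2 * (V ^ 2 / L))) * (C * H * Real.exp (V ^ 2 / L)) :=
    mul_le_mul_of_nonneg_left h4 (Real.exp_pos _).le
  have e3 : Real.exp (-(2 * (V ^ 2 / L))) * (Real.exp (2 * (V ^ 2 / L)) *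
      volume.real (D ∩ {t | Real.exp V ≤ X t})) = volume.real (D ∩ {t | Real.exp V ≤ X t}) := by
    rw [← mul_assoc, ← Real.exp_add]; simp
  have e4 : Real.exp (-(2 * (V ^ 2 / L))) * (C * H * Real.exp (V ^ 2 / L)) = C * H * Real.exp (-(V ^ 2 / L)) := by
    have : Real.exp (-(2 * (V ^ 2 / L))) * Real.exp (V ^ 2 / L) = Real.exp (-(V ^ 2 / L)) := by
      rw [← Real.exp_add]; congr 1; ring
    calc _ = C * H * (Real.exp (-(2 * (V ^ 2 / L))) * Real.exp (V ^ 2 / L)) := by ring
      _ = _ := by rw [this]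
  rw [e3, e4] at h5
  exact h5

lemma meas_asc {D : Set ℝ} {X : ℝ → ℝ} (fD : volume D ≠ ⊤) {W V : ℝ} (hW : 0 < W) (J : ℕ) :
    volume.real (D ∩ {t | Real.exp V ≤ X t}) ≤ (∑ j ∈ Finset.range J, volume.real (D ∩ Lv X W (V + 2 * W * j + W))) +
      volume.real (D ∩ {t | Real.exp (V + 2 * W * J) ≤ X t}) := by
  induction J with
  | zero => simp
  | succ J ih =>
    refine ih.trans ?_
    rw [Finset.sum_range_succ, add_assoc]
    have h : volume.real (D ∩ {t | Real.exp (V + 2 * W * J) ≤ X t}) ≤
        volume.real (D ∩ Lv X W (V + 2 * W * J + W)) +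
          volume.real (D ∩ {t | Real.exp (V + 2 * W * ((J + 1 : ℕ) : ℝ)) ≤ X t}) := by
      refine le_trans (measureReal_mono ?_ ?_) (measureReal_union_le _ _)
      · rintro t ⟨h1, h2⟩
        rcases le_or_gt (X t) (Real.exp (V + 2 * W * J + W + W)) with h3 | h3
        · refine Or.inl ⟨h1, ?_, h3⟩
          rw [add_sub_cancel_right]
          exact h2
        · refine Or.inr ⟨h1, ?_⟩
          have e : V + 2 * W * ((J + 1 : ℕ) : ℝ) = V + 2 * W * J + W + W := by push_cast; ring
          show Real.exp (V + 2 * W * ((J + 1 : ℕ) : ℝ)) ≤ X t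
          rw [e]
          exact h3.le
      · exact fin_of_sub (Set.union_subset Set.inter_subset_left Set.inter_subset_left) fD
    linarith

/-- measure of the set of the large values -/
lemma clM {c C W B : ℝ} (hC : 0 ≤ C) (hW : 0 < W) {b : ℝ} (a : ℝ) (hb : 0 < b) (hbB : b + 1 ≤ B) :
    ∀ᶠ L : ℝ in atTop, ∀ (D : Set ℝ) (X : ℝ → ℝ) (H : ℝ), 0 < H → Dat D X c C W B H L →
      volume.real (D ∩ {t | Real.exp (b / 2 * L + a * Real.sqrt L) ≤ X t}) ≤
        H * Real.exp (-(b ^ 2 / 4 * L) - a * b * Real.sqrt L) := by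
  have hB : 0 < B := by linarith
  obtain ⟨J, hJ⟩ : ∃ J : ℕ, C * Real.exp (-(2 * b * W * J)) ≤ 1 / 2 := by
    obtain ⟨J, hJ⟩ := exists_pow_lt_of_lt_one (x := 1 / (2 * (C + 1))) (y := Real.exp (-(2 * b * W)))
      (by positivity) ((Real.exp_lt_exp.mpr (by
        have : 0 < 2 * b * W := by positivity
        linarith : -(2 * b * W) < 0)).trans_eq Real.exp_zero)
    refine ⟨J, ?_⟩
    have e : Real.exp (-(2 * b * W * J)) = Real.exp (-(2 * b * W)) ^ J := by
      rw [← Real.exp_nat_mul]; congr 1; ring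
    rw [e]
    rw [lt_div_iff₀ (by positivity)] at hJ
    have : 0 < Real.exp (-(2 * b * W)) ^ J := by positivity
    nlinarith
  filter_upwards [ev_ge (4 * |a|), ev_ge (2 * |a| / b), ev_ge (2 * J * C), eventually_ge_atTop (8 * W * J),
    eventually_gt_atTop (0:ℝ)] with L h1 h2 h3 h4 hL D X H hH d
  set s : ℝ := Real.sqrt L with hs
  have hs0 : 0 < s := Real.sqrt_pos.mpr hL
  have hss : s * s = L := Real.mul_self_sqrt hL.le
  have ha4 : |a| * s ≤ 1 / 4 * L := by
    have : |a| * s ≤ (s / 4) * s := by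
      apply mul_le_mul_of_nonneg_right _ hs0.le
      linarith
    have e : (s / 4) * s = 1 / 4 * L := by rw [← hss]; ring
    linarith
  have ha2 : |a| * s ≤ b / 2 * L := by
    rw [div_le_iff₀ hb] at h2
    have : |a| * s ≤ (s * b / 2) * s := by
      apply mul_le_mul_of_nonneg_right _ hs0.le
      linarith
    have e : (s * b / 2) * s = b / 2 * L := by rw [← hss]; ring
    linarith
  have has : |a * s| = |a| * s := by rw [abs_mul, abs_of_pos hs0]
  have hab := abs_le.mp (le_of_eq has)
  set V : ℝ := b / 2 * L + a * s with hV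
  have hV0 : 0 ≤ V := by rw [hV]; linarith
  have hV1 : V + 2 * W * J ≤ B * L := by
    have : (b + 1) * L ≤ B * L := mul_le_mul_of_nonneg_right hbB hL.le
    have h5 : 0 ≤ b / 2 * L := by positivity
    rw [hV]; linarith
  set m : ℝ := H * Real.exp (-(b ^ 2 / 4 * L) - a * b * s) with hm
  have hm0 : 0 < m := by positivity
  have hlev : ∀ j ∈ Finset.range J, volume.real (D ∩ Lv X W (V + 2 * W * j + W)) ≤ C / s * m := by
    intro j hj
    have hj' : (j:ℝ) + 1 ≤ J := by exact_mod_cast Finset.mem_range.mp hj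
    have hj0 : 0 ≤ 2 * W * (j:ℝ) := by positivity
    have hj1 : 2 * W * ((j:ℝ) + 1) ≤ 2 * W * J := by gcongr
    have h5 : |V + 2 * W * j + W| ≤ B * L := by
      rw [abs_of_nonneg (by linarith)]
      linarith
    refine (d.hi _ h5).trans ?_
    have eV : V + 2 * W * j + W = b / 2 * L - (-(a + (2 * W * j + W) / s)) * s := by
      rw [hV]; field_simp; ring
    rw [eV, key2 hL, ← hs]
    have h6 : -(b ^ 2 / 4 * L - b * (-(a + (2 * W * j + W) / s)) * s + (-(a + (2 * W * j + W) / s)) ^ 2) ≤
        -(b ^ 2 / 4 * L) - a * b * s := by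
      have e1 : b * (-(a + (2 * W * j + W) / s)) * s = -(a * b * s) - b * (2 * W * j + W) := by
        field_simp; ring
      rw [e1]
      have h7 : 0 ≤ b * (2 * W * j + W) := by positivity
      have h8 : 0 ≤ (-(a + (2 * W * j + W) / s)) ^ 2 := sq_nonneg _
      linarith
    have h9 := Real.exp_le_exp.mpr h6
    calc _ ≤ C * H * (Real.exp (-(b ^ 2 / 4 * L) - a * b * s) / s) := by gcongr
      _ = C / s * m := by rw [hm]; ring
  have hch := chern d hL (V := V + 2 * W * J) (by positivity) hV1
  have hch2 : C * H * Real.exp (-((V + 2 * W * J) ^ 2 / L)) ≤ 1 / 2 * m := by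
    have eV : V + 2 * W * J = b / 2 * L - (-(a + 2 * W * J / s)) * s := by
      rw [hV]; field_simp; ring
    rw [eV, key2 hL, ← hs]
    have h6 : -(b ^ 2 / 4 * L - b * (-(a + 2 * W * J / s)) * s + (-(a + 2 * W * J / s)) ^ 2) ≤
        -(2 * b * W * J) + (-(b ^ 2 / 4 * L) - a * b * s) := by
      have e1 : b * (-(a + 2 * W * J / s)) * s = -(a * b * s) - 2 * b * W * J := by
        field_simp; ring
      rw [e1]
      have h8 : 0 ≤ (-(a + 2 * W * J / s)) ^ 2 := sq_nonneg _
      linarith
    calc _ ≤ C * H * Real.exp (-(2 * b * W * J) + (-(b ^ 2 / 4 * L) - a * b * s)) := by gcongr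
      _ = (C * Real.exp (-(2 * b * W * J))) * m := by rw [Real.exp_add, hm]; ring
      _ ≤ 1 / 2 * m := by gcongr
  have hsum : ∑ j ∈ Finset.range J, volume.real (D ∩ Lv X W (V + 2 * W * j + W)) ≤ 1 / 2 * m := by
    refine (Finset.sum_le_sum hlev).trans ?_
    rw [Finset.sum_const, Finset.card_range, nsmul_eq_mul]
    have : (J:ℝ) * (C / s) ≤ 1 / 2 := by
      rw [← mul_div_assoc, div_le_iff₀ hs0]
      linarith
    calc (J:ℝ) * (C / s * m) = (J:ℝ) * (C / s) * m := by ring
      _ ≤ 1 / 2 * m := by gcongr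
  have := meas_asc (X := X) d.fD (V := V) hW J
  linarith

/-- the integral over a small set -/
lemma clD {c C W B : ℝ} (hC : 0 ≤ C) (hW : 0 < W) {b a : ℝ} (hb : 0 < b) (hbB : b + 1 ≤ B) (ha : 0 ≤ a) :
    ∀ᶠ L : ℝ in atTop, ∀ (D : Set ℝ) (X : ℝ → ℝ) (H : ℝ), 0 < H → Dat D X c C W B H L → ∀ F : Set ℝ,
      MeasurableSet F → volume.real (F ∩ D) ≤ H * Real.exp (-(b ^ 2 / 4 * L) - a * b * Real.sqrt L) →
      ∫ t in D ∩ F, X t ^ b ≤ (6 * C + (2 * C * Real.exp (B * W) / W + C) * 16 + 1) * prof a *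
        (H * Real.exp (b ^ 2 / 4 * L)) := by
  have hB : 0 < B := by linarith
  have hp := prof_pos ha
  have he := Real.exp_one_lt_d9
  set K : ℝ := 2 * C * Real.exp (B * W) / W + C with hK
  have hK0 : 0 ≤ K := by positivity
  rcases lt_or_ge a 1 with ha1 | ha1
  · filter_upwards with L D X H hH d F mF hF
    have hi : IntegrableOn (fun t => X t ^ b) D := by
      have := (d.int (b / 2) (by rw [abs_of_pos (by positivity)]; linarith))
      simpa [show 2 * (b / 2) = b by ring] using this
    have h1 : ∫ t in D, X t ^ b ≤ C * H * Real.exp (b ^ 2 / 4 * L) := by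
      have := d.mom (b / 2) (by rw [abs_of_pos (by positivity)]; linarith)
      have e : (b / 2) ^ 2 * L = b ^ 2 / 4 * L := by ring
      rw [e] at this
      simpa [show 2 * (b / 2) = b by ring] using this
    have h2 : 1 ≤ 6 * prof a := by
      unfold prof
      have e1 : Real.exp (-1) ≤ Real.exp (-a ^ 2) := Real.exp_le_exp.mpr (by nlinarith)
      have e2 : 1 / 3 ≤ Real.exp (-1) := by
        rw [Real.exp_neg, one_div]
        exact inv_anti₀ (Real.exp_pos _) (by linarith)
      rw [← mul_div_assoc, le_div_iff₀ (by linarith)]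
      linarith
    have hM : 0 ≤ H * Real.exp (b ^ 2 / 4 * L) := by positivity
    have h3 := int_mono (A := D ∩ F) d.X0 hi Set.inter_subset_left
    calc _ ≤ _ := h3
      _ ≤ C * H * Real.exp (b ^ 2 / 4 * L) := h1
      _ = C * 1 * (H * Real.exp (b ^ 2 / 4 * L)) := by ring
      _ ≤ C * (6 * prof a) * (H * Real.exp (b ^ 2 / 4 * L)) := by gcongr
      _ = 6 * C * prof a * (H * Real.exp (b ^ 2 / 4 * L)) := by ring
      _ ≤ _ := by
        apply mul_le_mul_of_nonneg_right _ hM
        apply mul_le_mul_of_nonneg_right _ hp.le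
        linarith
  · have ha2 : 0 < 1 + a := by linarith
    set η : ℝ := 1 / (1 + a) with hη
    have hη0 : 0 < η := by positivity
    have hη1 : η ≤ 1 / 2 := by rw [hη]; exact one_div_le_one_div_of_le (by norm_num) (by linarith)
    have haη : a * η ≤ 1 := by rw [hη, mul_one_div, div_le_one ha2]; linarith
    have ha' : 0 ≤ a - η := by linarith
    have hpp : prof (a - η) ≤ 16 * prof a := by
      unfold prof
      have e1 : Real.exp (-(a - η) ^ 2) ≤ Real.exp 2 * Real.exp (-a ^ 2) := by
        rw [← Real.exp_add]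
        apply Real.exp_le_exp.mpr
        nlinarith [sq_nonneg η]
      have e2 : Real.exp 2 ≤ 8 := by
        have : Real.exp 2 = Real.exp 1 ^ 2 := by rw [← Real.exp_nat_mul]; norm_num
        rw [this]
        have := Real.exp_pos 1
        nlinarith
      have e3 : (1 + a) / 2 ≤ 1 + (a - η) := by linarith
      calc Real.exp (-(a - η) ^ 2) / (1 + (a - η)) ≤ (8 * Real.exp (-a ^ 2)) / ((1 + a) / 2) := by
            apply div_le_div₀ (by positivity) _ (by positivity) e3
            refine e1.trans ?_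
            gcongr
        _ = _ := by field_simp; ring
    filter_upwards [clD' (c := c) hC hW hb hbB ha', ev_exp (1 / prof a) (mul_pos hb hη0), ev_ge 1,
      eventually_gt_atTop (0:ℝ)] with L h1 h2 h3 hL D X H hH d F mF hF
    have h4 := h1 D X H hH d
    set s : ℝ := Real.sqrt L with hs
    set M : ℝ := H * Real.exp (b ^ 2 / 4 * L) with hM
    have hM0 : 0 < M := by positivity
    have hi : IntegrableOn (fun t => X t ^ b) D := by
      have := (d.int (b / 2) (by rw [abs_of_pos (by positivity)]; linarith))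
      simpa [show 2 * (b / 2) = b by ring] using this
    set V : ℝ := b / 2 * L + (a - η) * s with hV
    have m1 : MeasurableSet ((D ∩ F) ∩ {t | X t ≤ Real.exp V}) :=
      (d.mD.inter mF).inter (measurableSet_le d.mX measurable_const)
    have m2 : MeasurableSet (D ∩ {t | Real.exp V ≤ X t}) := d.mD.inter (measurableSet_le measurable_const d.mX)
    have s1 : (D ∩ F) ∩ {t | X t ≤ Real.exp V} ⊆ D := Set.inter_subset_left.trans Set.inter_subset_left
    have h5 := int_union (b := b) (G := D ∩ F) d.X0 m1 m2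
      (hi.mono_set (Set.union_subset s1 Set.inter_subset_left)) (by
        rintro t ht
        rcases le_or_gt (X t) (Real.exp V) with h | h
        · exact Or.inl ⟨ht, h⟩
        · exact Or.inr ⟨ht.1, h.le⟩)
    have h6 : ∫ t in (D ∩ F) ∩ {t | X t ≤ Real.exp V}, X t ^ b ≤ 1 * prof a * M := by
      have h7 := int_le d.X0 (v := V) m1 (fin_of_sub s1 d.fD) hb.le (hi.mono_set s1) (fun t ht => ht.2)
      have h8 : volume.real ((D ∩ F) ∩ {t | X t ≤ Real.exp V}) ≤ volume.real (F ∩ D) :=
        measureReal_mono (by rintro t ⟨⟨h1, h2⟩, _⟩; exact ⟨h2, h1⟩) (fin_of_sub Set.inter_subset_right d.fD)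
      have h9 : Real.exp (b * V) * (H * Real.exp (-(b ^ 2 / 4 * L) - a * b * s)) = M * Real.exp (-(b * η * s)) := by
        have : Real.exp (b * V) * Real.exp (-(b ^ 2 / 4 * L) - a * b * s) =
            Real.exp (b ^ 2 / 4 * L) * Real.exp (-(b * η * s)) := by
          rw [← Real.exp_add, ← Real.exp_add]
          congr 1
          rw [hV]; ring
        calc _ = H * (Real.exp (b * V) * Real.exp (-(b ^ 2 / 4 * L) - a * b * s)) := by ring
          _ = _ := by rw [this, hM]; ring
      have h10 : Real.exp (-(b * η * s)) ≤ prof a := by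
        have : 1 / prof a ≤ Real.exp (b * η * s) := by
          refine le_trans ?_ h2
          have : 0 < 1 / prof a := by positivity
          nlinarith
        rw [Real.exp_neg]
        rw [one_div] at this
        exact inv_le_of_inv_le₀ hp this
      calc _ ≤ _ := h7
        _ ≤ Real.exp (b * V) * (H * Real.exp (-(b ^ 2 / 4 * L) - a * b * s)) := by
          apply mul_le_mul_of_nonneg_left (h8.trans hF) (Real.exp_pos _).le
        _ = M * Real.exp (-(b * η * s)) := h9
        _ ≤ M * prof a := by gcongr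
        _ = _ := by ring
    calc _ ≤ _ := h5
      _ ≤ 1 * prof a * M + K * prof (a - η) * M := by linarith
      _ ≤ 1 * prof a * M + K * (16 * prof a) * M := by gcongr
      _ ≤ 1 * prof a * M + K * (16 * prof a) * M + 6 * C * (prof a * M) := by
        have : 0 ≤ 6 * C * (prof a * M) := by positivity
        linarith
      _ = _ := by ring

end Run7.h5.CS
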